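import Pool.Agent.D0H44.EC.Stm

/-! Project EC, package CG: expansion into characters modulo `r` (after `D0H44/EM/Exp.lean`). -/

set_option autoImplicit false

open Finset MeasureTheory

namespace Pool.Agent.D0H12.EC

open H343 (ex)
open Pool.Agent.D0H44.EL
open Pool.Agent.H398R2.BV Pool.Agent.H410R2
open Pool.Agent.D0H44.FR (w w1 w2 S_W PP)
open Pool.Agent.D0H44.EC (CR S_CG)

theorem CR_eq {r : ℕ} (hr : r.Prime) (x : ℝ) (q a M : ℕ) :
    CR x q a M r = ∑ χ ∈ Prim r,
      ‖∑ n ∈ (Icc 1 M).filter (fun n => n ≡ a [MOD q]),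
        ((ArithmeticFunction.vonMangoldt n : ℝ) : ℂ) * (((w ((n : ℝ) / x) : ℝ) : ℂ) *
          χ (n : ZMod r))‖ := by
  classical
  have : NeZero r := ⟨hr.ne_zero⟩
  unfold CR
  refine sum_congr ?_ (fun _ _ => rfl)
  ext χ
  constructor
  · intro h
    have h' : χ ≠ 1 := @Finset.ne_of_mem_erase _ (_) _ _ _ h
    unfold Prim
    rw [mem_filter]
    exact ⟨mem_univ _, prim_of_prime hr χ h'⟩
  · intro h
    exact @Finset.mem_erase_of_ne_of_mem _ (_) _ _ _ (prim_ne_one hr.two_le h) (mem_univ _)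

theorem expand_pt {r : ℕ} (hr : r.Prime) (j : ℕ) (hj : j.Coprime r) (n : ℕ) :
    ((r : ℂ) - 1) * H343.ex (((n * j : ℕ) : ℝ) / r) + 1 =
      ∑ χ ∈ Prim r, H343.GS χ⁻¹ * (χ (j : ZMod r) * χ (n : ZMod r)) +
        (if n.Coprime r then 0 else (r : ℂ)) := by
  classical
  have : NeZero r := ⟨hr.ne_zero⟩
  have hr2 := hr.two_le
  have hmu : ((ArithmeticFunction.moebius r : ℤ) : ℂ) = -1 := by
    rw [ArithmeticFunction.moebius_apply_prime hr]
    norm_num
  have hset : (univ : Finset (DirichletCharacter ℂ r)) = insert 1 (Prim r) := by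
    ext χ
    simp only [mem_univ, mem_insert, true_iff]
    by_cases h : χ = 1
    · exact Or.inl h
    · right
      unfold Prim
      rw [mem_filter]
      exact ⟨mem_univ _, prim_of_prime hr χ h⟩
  have hnot : (1 : DirichletCharacter ℂ r) ∉ Prim r := by
    intro h
    exact prim_ne_one hr2 h rfl
  by_cases hn : n.Coprime r
  · rw [if_pos hn, add_zero]
    have hnj : (n * j).Coprime r := Nat.Coprime.mul_left hn hj
    have h1 := H343.GS_expand r (n * j) hr.one_le hnj
    rw [hset, sum_insert hnot, Nat.totient_prime hr] at h1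
    rw [inv_one, H343.GS_one r hr.one_le, hmu] at h1
    have h2 : (1 : DirichletCharacter ℂ r) ((n * j : ℕ) : ZMod r) = 1 := by
      apply MulChar.one_apply
      rw [ZMod.isUnit_iff_coprime]
      exact hnj
    rw [h2, Nat.cast_sub hr.one_le, Nat.cast_one] at h1
    rw [h1]
    have h3 : ∑ x ∈ Prim r, x ((n * j : ℕ) : ZMod r) * H343.GS x⁻¹ =
        ∑ x ∈ Prim r, H343.GS x⁻¹ * (x (j : ZMod r) * x (n : ZMod r)) := by
      apply sum_congr rfl
      intro x _
      push_cast
      rw [map_mul]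
      ring
    rw [h3]
    ring
  · rw [if_neg hn]
    have hdvd : r ∣ n := by
      by_contra h
      exact hn ((Nat.Prime.coprime_iff_not_dvd hr).2 h).symm
    obtain ⟨k, rfl⟩ := hdvd
    have h1 : ∀ χ ∈ Prim r, H343.GS χ⁻¹ * (χ (j : ZMod r) * χ ((r * k : ℕ) : ZMod r)) = 0 := by
      intro χ _
      have : ¬ IsUnit ((r * k : ℕ) : ZMod r) := by
        rw [ZMod.isUnit_iff_coprime]
        exact hn
      rw [MulChar.map_nonunit χ this, mul_zero, mul_zero]
    rw [sum_eq_zero h1]
    have h2 : ((r * k * j : ℕ) : ℝ) / r = ((k * j : ℕ) : ℝ) := by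
      have : (r : ℝ) ≠ 0 := by exact_mod_cast hr.ne_zero
      push_cast
      field_simp
    rw [h2, H343.Gauss.ex_nat]
    ring

theorem t_CG (hW : S_W) : S_CG := by
  classical
  intro x q a M r j hx hq hM hr hj
  obtain ⟨-, -, -, h01, -⟩ := hW
  have hNZ : NeZero r := ⟨hr.ne_zero⟩
  have hr1 : (1 : ℝ) < r := by exact_mod_cast hr.one_lt
  have hr2 : (2 : ℝ) ≤ r := by exact_mod_cast hr.two_le
  have hju : IsUnit (j : ZMod r) := (ZMod.isUnit_iff_coprime j r).mpr hj
  set S : Finset ℕ := (Icc 1 M).filter (fun n => n ≡ a [MOD q]) with hS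
  set c : ℕ → ℂ := fun n => ((ArithmeticFunction.vonMangoldt n : ℝ) : ℂ) * ((w ((n : ℝ) / x) : ℝ) : ℂ) with hc
  set Lh : ℂ := ∑ n ∈ S, ((ArithmeticFunction.vonMangoldt n : ℝ) : ℂ) *
        (((w ((n : ℝ) / x) : ℝ) : ℂ) * ex (((n * j : ℕ) : ℝ) / r)) +
    ((1 / ((r : ℝ) - 1) * PP x a M q : ℝ) : ℂ) with hLh
  have hrc : ((r : ℂ) - 1) ≠ 0 := by
    intro h
    have : ((r : ℝ) : ℂ) = ((1 : ℝ) : ℂ) := by push_cast; linear_combination h
    have := Complex.ofReal_injective this
    linarith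
  have e1 : ((r : ℂ) - 1) * Lh = ∑ n ∈ S, c n * (((r : ℂ) - 1) * ex (((n * j : ℕ) : ℝ) / r) + 1) := by
    rw [hLh, mul_add, mul_sum]
    have e2 : ((r : ℂ) - 1) * ((1 / ((r : ℝ) - 1) * PP x a M q : ℝ) : ℂ) = ∑ n ∈ S, c n := by
      unfold PP
      push_cast
      rw [← mul_assoc, mul_one_div, div_self hrc, one_mul]
    rw [e2, ← sum_add_distrib]
    apply sum_congr rfl
    intro n _
    simp only [hc]
    ring
  have e3 : ((r : ℂ) - 1) * Lh = ∑ χ ∈ Prim r, H343.GS χ⁻¹ * (χ (j : ZMod r) *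
      ∑ n ∈ S, ((ArithmeticFunction.vonMangoldt n : ℝ) : ℂ) * (((w ((n : ℝ) / x) : ℝ) : ℂ) * χ (n : ZMod r))) +
      (r : ℂ) * ∑ n ∈ S.filter (fun n => ¬ n.Coprime r), c n := by
    rw [e1]
    have e4 : ∑ χ ∈ Prim r, H343.GS χ⁻¹ * (χ (j : ZMod r) *
        ∑ n ∈ S, ((ArithmeticFunction.vonMangoldt n : ℝ) : ℂ) * (((w ((n : ℝ) / x) : ℝ) : ℂ) * χ (n : ZMod r))) =
        ∑ n ∈ S, c n * ∑ χ ∈ Prim r, H343.GS χ⁻¹ * (χ (j : ZMod r) * χ (n : ZMod r)) := by
      simp_rw [mul_sum]
      rw [sum_comm]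
      apply sum_congr rfl
      intro n _
      apply sum_congr rfl
      intro χ _
      simp only [hc]
      ring
    have e5 : ∑ n ∈ S.filter (fun n => ¬ n.Coprime r), c n =
        ∑ n ∈ S, if ¬ n.Coprime r then c n else 0 := Finset.sum_filter _ _
    rw [e4, e5, mul_sum, ← sum_add_distrib]
    apply sum_congr rfl
    intro n _
    rw [expand_pt hr j hj n]
    by_cases hn : n.Coprime r
    · rw [if_pos hn, if_neg (not_not.2 hn)]
      ring
    · rw [if_neg hn, if_pos hn]
      ring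
  have hlogM : 0 ≤ Real.log (M : ℝ) := Real.log_natCast_nonneg M
  have hbound : ‖((r : ℂ) - 1) * Lh‖ ≤ Real.sqrt r * CR x q a M r + r * Real.log M := by
    rw [e3]
    refine (norm_add_le _ _).trans (add_le_add ?_ ?_)
    · refine (norm_sum_le _ _).trans ?_
      rw [CR_eq hr, mul_sum]
      apply sum_le_sum
      intro χ hχ
      have hprim : χ.IsPrimitive := by
        unfold Prim at hχ
        rw [mem_filter] at hχ
        exact hχ.2
      have hinv : (χ⁻¹).IsPrimitive := by
        rw [DirichletCharacter.isPrimitive_def, DirichletCharacter.conductor_inv]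
        exact hprim
      have hj1 : ‖χ (j : ZMod r)‖ = 1 := by
        obtain ⟨u, hu⟩ := hju
        rw [← hu]
        exact DirichletCharacter.unit_norm_eq_one χ u
      rw [norm_mul, norm_mul, hj1, one_mul, H343.GS_primitive r hr.one_le χ⁻¹ hinv]
    · rw [norm_mul, Complex.norm_natCast]
      apply mul_le_mul_of_nonneg_left _ (by positivity)
      refine (norm_sum_le _ _).trans ?_
      have h2 := sum_not_coprime M r hr.one_le
      rw [hr.primeFactors, card_singleton] at h2
      calc ∑ n ∈ S.filter (fun n => ¬ n.Coprime r), ‖c n‖ ≤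
          ∑ n ∈ S.filter (fun n => ¬ n.Coprime r), ArithmeticFunction.vonMangoldt n := by
            apply sum_le_sum
            intro n _
            simp only [hc]
            rw [norm_mul, Complex.norm_real, Complex.norm_real, Real.norm_of_nonneg ArithmeticFunction.vonMangoldt_nonneg,
              Real.norm_of_nonneg (h01 _).1]
            calc _ ≤ ArithmeticFunction.vonMangoldt n * 1 :=
                  mul_le_mul_of_nonneg_left (h01 _).2 ArithmeticFunction.vonMangoldt_nonneg
              _ = _ := mul_one _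
        _ ≤ ∑ n ∈ (Icc 1 M).filter (fun n => ¬ n.Coprime r), ArithmeticFunction.vonMangoldt n := by
            apply sum_le_sum_of_subset_of_nonneg
            · intro n hn
              rw [mem_filter, hS, mem_filter] at hn
              rw [mem_filter]
              exact ⟨hn.1.1, hn.2⟩
            · intro _ _ _
              exact ArithmeticFunction.vonMangoldt_nonneg
        _ ≤ Real.log M := by
            refine h2.trans (le_of_eq ?_)
            push_cast
            ring
  have hnr : ‖((r : ℂ) - 1)‖ = (r : ℝ) - 1 := by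
    have : ((r : ℂ) - 1) = (((r : ℝ) - 1 : ℝ) : ℂ) := by push_cast; rfl
    rw [this, Complex.norm_real, Real.norm_of_nonneg (by linarith)]
  rw [norm_mul, hnr] at hbound
  have hr1' : 0 < (r : ℝ) - 1 := by linarith
  have h5 : ‖Lh‖ ≤ (Real.sqrt r * CR x q a M r + r * Real.log M) / ((r : ℝ) - 1) := by
    rw [le_div_iff₀ hr1']
    linarith
  refine h5.trans ?_
  rw [add_div, mul_div_right_comm]
  apply add_le_add le_rfl
  rw [div_le_iff₀ hr1']
  nlinarith

end Pool.Agent.D0H12.EC
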