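import Pool.Agent.D0H44.EC.Stm
import Pool.Agent.D0H44.EL.CS
import Pool.Agent.D0H44.EL.Nrm

/-! Project EC, package DU: duality for one modulus and one class (after `D0H52/EM/Dua.lean` and
`D0H52/EM/Nrm.lean`). -/

set_option autoImplicit false

open Finset MeasureTheory

namespace Pool.Agent.D0H12.EC

open H343 (ex)
open Pool.Agent.D0H44.EM (ps Er)
open Pool.Agent.D0H44.EL
open Pool.Agent.D0H44.FR (w w1 w2 S_W)
open Pool.Agent.D0H44.EC (gg S_DU)

theorem Er_meas (q a : ℕ) : Measurable (Er q a) := by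
  unfold Er ps
  apply Measurable.sub
  · exact (measurable_from_nat (f := fun k : ℕ => ∑ n ∈ (Icc 1 k).filter (fun n => n ≡ a [MOD q]),
      ArithmeticFunction.vonMangoldt n)).comp Nat.measurable_floor
  · exact measurable_id.div_const _

theorem Er_bound (q a : ℕ) (hq : 1 ≤ q) (Y x : ℝ) (hx : 0 ≤ x) (hxY : x ≤ Y) :
    |Er q a x| ≤ (∑ n ∈ Icc 1 ⌊Y⌋₊, ArithmeticFunction.vonMangoldt n) + Y := by
  unfold Er ps
  have h1 : 0 ≤ ∑ n ∈ (Icc 1 ⌊x⌋₊).filter (fun n => n ≡ a [MOD q]),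
      ArithmeticFunction.vonMangoldt n :=
    sum_nonneg fun _ _ => ArithmeticFunction.vonMangoldt_nonneg
  have h2 : ∑ n ∈ (Icc 1 ⌊x⌋₊).filter (fun n => n ≡ a [MOD q]),
      ArithmeticFunction.vonMangoldt n ≤ ∑ n ∈ Icc 1 ⌊Y⌋₊, ArithmeticFunction.vonMangoldt n := by
    apply sum_le_sum_of_subset_of_nonneg
    · refine (filter_subset _ _).trans (Icc_subset_Icc le_rfl (Nat.floor_le_floor hxY))
    · intro _ _ _
      exact ArithmeticFunction.vonMangoldt_nonneg
  have h3 : (1 : ℝ) ≤ (Nat.totient q : ℝ) := by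
    exact_mod_cast Nat.totient_pos.2 hq
  have h4 : x / (Nat.totient q : ℝ) ≤ Y := by
    rw [div_le_iff₀ (by linarith)]
    nlinarith
  have h5 : 0 ≤ x / (Nat.totient q : ℝ) := by positivity
  rw [abs_le]
  constructor <;> linarith

theorem ex_c (N : ℝ) : Continuous (fun x : ℝ => ex (x / N)) := by
  unfold H343.ex
  fun_prop

theorem gg_meas (hW : S_W) (x : ℝ) (q r : ℕ) : Measurable (gg x q r) := by
  obtain ⟨h1, h2, -⟩ := hW
  have c1 : Continuous w := continuous_iff_continuousAt.2 fun s => (h1 s).continuousAt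
  have c2 : Continuous w1 := continuous_iff_continuousAt.2 fun s => (h2 s).continuousAt
  unfold gg
  have c3 : Continuous fun u : ℝ => ((w1 (u / x) / x : ℝ) : ℂ) :=
    Complex.continuous_ofReal.comp ((c2.comp (continuous_id.div_const x)).div_const x)
  have c4 : Continuous fun u : ℝ => ((w (u / x) : ℝ) : ℂ) :=
    Complex.continuous_ofReal.comp (c1.comp (continuous_id.div_const x))
  exact ((c3.mul (ex_c _)).add (c4.mul (continuous_const.mul (ex_c _)))).measurable

theorem gg_bound (hW : S_W) (x : ℝ) (hx : 0 < x) (q r : ℕ) (u : ℝ) :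
    ‖gg x q r u‖ ≤ 12 / x + 2 * Real.pi / ((r * q : ℕ) : ℝ) := by
  obtain ⟨-, -, -, h01, h1, -⟩ := hW
  unfold gg
  refine (norm_add_le _ _).trans ?_
  rw [norm_mul, norm_mul, H343.Gauss.norm_ex, mul_one, Complex.norm_real, Complex.norm_real,
    Real.norm_eq_abs, Real.norm_eq_abs, norm_mul, norm_mul, H343.Gauss.norm_ex, mul_one,
    Complex.norm_I, mul_one, Complex.norm_real, Real.norm_eq_abs,
    abs_of_nonneg (h01 _).1, abs_of_nonneg (by positivity : 0 ≤ 2 * Real.pi / ((r * q : ℕ) : ℝ)),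
    abs_div, abs_of_pos hx]
  have h2 := h1 (u / x)
  have h3 : w (u / x) * (2 * Real.pi / ((r * q : ℕ) : ℝ)) ≤ 1 * (2 * Real.pi / ((r * q : ℕ) : ℝ)) := by
    apply mul_le_mul_of_nonneg_right (h01 _).2
    positivity
  have h4 : |w1 (u / x)| / x ≤ 12 / x := by gcongr
  linarith

theorem nrm1 (q R : ℕ) (G : Finset ℕ) (b : ℕ → ℂ) (X : ℝ) (hq : 1 ≤ q)
    (hG : ∀ r ∈ G, R < r ∧ r ≤ 2 * R) (hb : ∀ r ∈ G, ‖b r‖ ≤ 1) (hX : 0 ≤ X) :
    ∫ x in (0 : ℝ)..X, ‖∑ r ∈ G, b r * ex (x / ((r * q : ℕ) : ℝ))‖ ^ 2 ≤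
      G.card * (X + G.card * (4 * (R : ℝ) ^ 2 * q)) := by
  have hq0 : (0 : ℝ) < q := by exact_mod_cast hq
  have h1 : ∀ (x : ℝ),
      ((‖∑ r ∈ G, b r * ex (x / ((r * q : ℕ) : ℝ))‖ ^ 2 : ℝ) : ℂ) =
      ∑ r ∈ G, ∑ s ∈ G, (b r * (starRingEnd ℂ) (b s)) *
          ex ((1 / ((r * q : ℕ) : ℝ) - 1 / ((s * q : ℕ) : ℝ)) * x) := by
    intro x
    push_cast
    rw [← Complex.mul_conj', map_sum, sum_mul_sum]
    apply sum_congr rfl
    intro r _
    apply sum_congr rfl
    intro s _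
    rw [map_mul, Pool.Agent.D0H44.EL.ex_conj]
    have e2 : ex ((1 / ((r : ℝ) * q) - 1 / ((s : ℝ) * q)) * x) =
        ex (x / ((r : ℝ) * q)) * ex (-(x / ((s : ℝ) * q))) := by
      rw [← H343.Gauss.ex_add]
      congr 1
      ring
    rw [e2]
    ring
  have h2 : ((∫ x in (0 : ℝ)..X, ‖∑ r ∈ G, b r * ex (x / ((r * q : ℕ) : ℝ))‖ ^ 2 : ℝ) : ℂ) =
      ∑ r ∈ G, ∑ s ∈ G, (b r * (starRingEnd ℂ) (b s)) *
          ∫ x in (0 : ℝ)..X, ex ((1 / ((r * q : ℕ) : ℝ) - 1 / ((s * q : ℕ) : ℝ)) * x) := by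
    rw [← intervalIntegral.integral_ofReal]
    simp_rw [h1]
    have hci : ∀ r s : ℕ, IntervalIntegrable (fun x : ℝ => (b r * (starRingEnd ℂ) (b s)) *
          ex ((1 / ((r * q : ℕ) : ℝ) - 1 / ((s * q : ℕ) : ℝ)) * x)) volume 0 X := by
      intro r s
      apply Continuous.intervalIntegrable
      unfold H343.ex
      fun_prop
    rw [intervalIntegral.integral_finsetSum]
    · apply sum_congr rfl
      intro r _
      rw [intervalIntegral.integral_finsetSum]
      · apply sum_congr rfl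
        intro s _
        rw [intervalIntegral.integral_const_mul]
      · intro s _
        exact hci r s
    · intro r _
      apply Continuous.intervalIntegrable
      apply continuous_finsetSum
      intro s _
      unfold H343.ex
      fun_prop
  have h3 : ∀ r ∈ G, ∀ s ∈ G, ‖(b r * (starRingEnd ℂ) (b s)) *
          ∫ x in (0 : ℝ)..X, ex ((1 / ((r * q : ℕ) : ℝ) - 1 / ((s * q : ℕ) : ℝ)) * x)‖ ≤
        (if r = s then X else 0) + 4 * (R : ℝ) ^ 2 * q := by
    intro r hr s hs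
    have hcc : ‖b r * (starRingEnd ℂ) (b s)‖ ≤ 1 := by
      rw [norm_mul, RCLike.norm_conj]
      exact mul_le_one₀ (hb r hr) (norm_nonneg _) (hb s hs)
    rw [norm_mul]
    have hI : ‖∫ x in (0 : ℝ)..X, ex ((1 / ((r * q : ℕ) : ℝ) - 1 / ((s * q : ℕ) : ℝ)) * x)‖ ≤
        (if r = s then X else 0) + 4 * (R : ℝ) ^ 2 * q := by
      by_cases h : r = s
      · rw [if_pos h]
        refine (intervalIntegral.norm_integral_le_of_norm_le_const (C := 1) ?_).trans ?_
        · intro x _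
          rw [H343.Gauss.norm_ex]
        · rw [one_mul, sub_zero, abs_of_nonneg hX]
          have : 0 ≤ 4 * (R : ℝ) ^ 2 * q := by positivity
          linarith
      · rw [if_neg h, zero_add]
        obtain ⟨r1, r2⟩ := hG r hr
        obtain ⟨s1, s2⟩ := hG s hs
        have hr0 : (0 : ℝ) < r := by exact_mod_cast (by omega : 0 < r)
        have hs0 : (0 : ℝ) < s := by exact_mod_cast (by omega : 0 < s)
        have hqrs : (1 : ℝ) ≤ |(s : ℝ) - r| := by
          have hne : (s : ℤ) - r ≠ 0 := by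
            intro h'
            apply h
            omega
          have h5 := Int.one_le_abs hne
          exact_mod_cast h5
        have e1 : (1 / ((r * q : ℕ) : ℝ) - 1 / ((s * q : ℕ) : ℝ)) = ((s : ℝ) - r) / (r * s * q) := by
          push_cast
          field_simp
        have hne0 : ((s : ℝ) - r) ≠ 0 := by
          intro h'
          rw [h', abs_zero] at hqrs
          linarith
        have hα : (1 / ((r * q : ℕ) : ℝ) - 1 / ((s * q : ℕ) : ℝ)) ≠ 0 := by
          rw [e1]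
          apply div_ne_zero hne0
          positivity
        refine (Pool.Agent.D0H44.EL.ex_int_le _ X hα).trans ?_
        rw [e1, abs_div, abs_of_pos (by positivity : (0 : ℝ) < r * s * q)]
        have hr2 : (r : ℝ) ≤ 2 * R := by exact_mod_cast r2
        have hs2 : (s : ℝ) ≤ 2 * R := by exact_mod_cast s2
        have hpi := Real.pi_gt_three
        have hrs2 : (r : ℝ) * s ≤ 4 * (R : ℝ) ^ 2 := by
          calc (r : ℝ) * s ≤ (2 * R) * (2 * R) := by gcongr
            _ = _ := by ring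
        have habs : 0 < |(s : ℝ) - r| := abs_pos.2 hne0
        have e2 : 1 / (Real.pi * (|(s : ℝ) - r| / (r * s * q))) =
            (r * s) * q * (1 / (Real.pi * |(s : ℝ) - r|)) := by
          field_simp
        rw [e2]
        have h6 : (1 : ℝ) / (Real.pi * |(s : ℝ) - r|) ≤ 1 := by
          rw [div_le_one (by positivity)]
          nlinarith
        calc (r * s : ℝ) * q * (1 / (Real.pi * |(s : ℝ) - r|)) ≤ (r * s : ℝ) * q * 1 := by gcongr
          _ = r * s * q := mul_one _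
          _ ≤ 4 * (R : ℝ) ^ 2 * q := by gcongr
    calc ‖b r * (starRingEnd ℂ) (b s)‖ * ‖∫ x in (0 : ℝ)..X,
          ex ((1 / ((r * q : ℕ) : ℝ) - 1 / ((s * q : ℕ) : ℝ)) * x)‖ ≤
        1 * ‖∫ x in (0 : ℝ)..X, ex ((1 / ((r * q : ℕ) : ℝ) - 1 / ((s * q : ℕ) : ℝ)) * x)‖ := by gcongr
      _ ≤ _ := by rw [one_mul]; exact hI
  have h4 : (∫ x in (0 : ℝ)..X, ‖∑ r ∈ G, b r * ex (x / ((r * q : ℕ) : ℝ))‖ ^ 2) ≤
      ∑ r ∈ G, ∑ s ∈ G, ((if r = s then X else 0) + 4 * (R : ℝ) ^ 2 * q) := by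
    calc (∫ x in (0 : ℝ)..X, ‖∑ r ∈ G, b r * ex (x / ((r * q : ℕ) : ℝ))‖ ^ 2) ≤
        ‖((∫ x in (0 : ℝ)..X, ‖∑ r ∈ G, b r * ex (x / ((r * q : ℕ) : ℝ))‖ ^ 2 : ℝ) : ℂ)‖ := by
          rw [Complex.norm_real]
          exact le_abs_self _
      _ ≤ ∑ r ∈ G, ∑ s ∈ G, ‖(b r * (starRingEnd ℂ) (b s)) *
          ∫ x in (0 : ℝ)..X, ex ((1 / ((r * q : ℕ) : ℝ) - 1 / ((s * q : ℕ) : ℝ)) * x)‖ := by
          rw [h2]
          refine (norm_sum_le _ _).trans (sum_le_sum fun r _ => norm_sum_le _ _)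
      _ ≤ _ := sum_le_sum fun r hr => sum_le_sum fun s hs => h3 r hr s hs
  refine h4.trans (le_of_eq ?_)
  simp_rw [sum_add_distrib, sum_ite_eq]
  have e3 : ∑ r ∈ G, (if r ∈ G then X else 0) = G.card * X := by
    rw [← nsmul_eq_mul, ← sum_const]
    exact sum_congr rfl fun r hr => by rw [if_pos hr]
  rw [e3]
  simp only [sum_const, nsmul_eq_mul]
  ring

theorem t_DU (hW : S_W) : S_DU := by
  intro q a R G x0 hx1 hq hR hG
  have hW' := hW
  obtain ⟨-, -, -, hw01, hw1, -⟩ := hW'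
  have hx0 : 0 < x0 := by linarith
  have hq0 : (0 : ℝ) < q := by exact_mod_cast hq
  have hR0 : (0 : ℝ) < R := by exact_mod_cast hR
  set X : ℝ := 2 * x0 with hXd
  have hX0 : 0 ≤ X := by positivity
  have hle : x0 ≤ X := by linarith
  set J : ℕ → ℂ := fun r => ∫ u in x0..X, ((Er q a u : ℝ) : ℂ) * gg x0 q r u with hJ
  -- phases
  set b : ℕ → ℂ := fun r => (starRingEnd ℂ) (J r) / ‖J r‖ with hb
  have hb1 : ∀ r, ‖b r‖ ≤ 1 := by
    intro r
    rw [hb]
    simp only
    rw [norm_div, RCLike.norm_conj, Complex.norm_real, norm_norm]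
    exact div_self_le_one _
  have hb2 : ∀ r, b r * J r = (‖J r‖ : ℂ) := by
    intro r
    rw [hb]
    simp only
    by_cases h0 : J r = 0
    · rw [h0]; simp
    · have : (‖J r‖ : ℂ) ≠ 0 := by
        exact_mod_cast (norm_ne_zero_iff.2 h0)
      rw [div_mul_eq_mul_div, Complex.conj_mul', sq, mul_div_assoc, div_self this, mul_one]
  set s : Set ℝ := Set.Ioc x0 X with hs
  set K : ℝ := (∑ n ∈ Icc 1 ⌊X⌋₊, ArithmeticFunction.vonMangoldt n) + X with hK
  have hKb : ∀ x ∈ s, |Er q a x| ≤ K := fun x hx =>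
    Er_bound q a hq X x (hx0.le.trans hx.1.le) hx.2
  have hfin : volume s ≠ ⊤ := measure_Ioc_lt_top.ne
  -- the functions
  set F : ℝ → ℂ := fun x => ∑ r ∈ G, b r * gg x0 q r x with hF
  set P : ℝ → ℂ := fun x => ∑ r ∈ G, b r * ex (x / ((r * q : ℕ) : ℝ)) with hP
  set P' : ℝ → ℂ := fun x => ∑ r ∈ G, (b r * ((R : ℂ) / r)) * ex (x / ((r * q : ℕ) : ℝ)) with hP'
  have hPc : Continuous P := by
    rw [hP]
    apply continuous_finsetSum
    intro r _
    exact continuous_const.mul (ex_c _)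
  have hPc' : Continuous P' := by
    rw [hP']
    apply continuous_finsetSum
    intro r _
    exact continuous_const.mul (ex_c _)
  have hFm : Measurable F := by
    rw [hF]
    apply Finset.measurable_fun_sum
    intro r _
    exact (gg_meas hW x0 q r).const_mul _
  have hFeq : ∀ x, F x = ((w1 (x / x0) / x0 : ℝ) : ℂ) * P x +
      ((w (x / x0) : ℝ) : ℂ) * (((2 * Real.pi / (R * q) : ℝ) : ℂ) * Complex.I * P' x) := by
    intro x
    rw [hF, hP, hP']
    simp only
    rw [mul_sum, mul_sum, mul_sum, ← sum_add_distrib]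
    apply sum_congr rfl
    intro r hr
    have hr0 : (r : ℂ) ≠ 0 := by
      have := (hG r hr).1
      exact_mod_cast (by omega : r ≠ 0)
    have hRc : (R : ℂ) ≠ 0 := by exact_mod_cast hR0.ne'
    have hqc : (q : ℂ) ≠ 0 := by exact_mod_cast hq0.ne'
    have hxc : (x0 : ℂ) ≠ 0 := by exact_mod_cast hx0.ne'
    unfold gg
    push_cast
    field_simp
  have hFb : ∀ x, ‖F x‖ ^ 2 ≤ 288 / x0 ^ 2 * ‖P x‖ ^ 2 + 80 / ((R : ℝ) * q) ^ 2 * ‖P' x‖ ^ 2 := by
    intro x
    rw [hFeq]
    have h1 : ‖((w1 (x / x0) / x0 : ℝ) : ℂ) * P x‖ ≤ 12 / x0 * ‖P x‖ := by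
      rw [norm_mul, Complex.norm_real, Real.norm_eq_abs, abs_div, abs_of_pos hx0]
      apply mul_le_mul_of_nonneg_right _ (norm_nonneg _)
      apply div_le_div_of_nonneg_right (hw1 _) hx0.le
    have h2 : ‖((w (x / x0) : ℝ) : ℂ) * (((2 * Real.pi / (R * q) : ℝ) : ℂ) * Complex.I * P' x)‖ ≤
        2 * Real.pi / (R * q) * ‖P' x‖ := by
      rw [norm_mul, norm_mul, norm_mul, Complex.norm_I, mul_one, Complex.norm_real,
        Complex.norm_real, Real.norm_eq_abs, Real.norm_eq_abs,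
        abs_of_nonneg (hw01 _).1, abs_of_nonneg (by positivity : 0 ≤ 2 * Real.pi / (R * q : ℝ))]
      calc w (x / x0) * (2 * Real.pi / (R * q) * ‖P' x‖) ≤ 1 * (2 * Real.pi / (R * q) * ‖P' x‖) := by
            apply mul_le_mul_of_nonneg_right (hw01 _).2
            positivity
        _ = _ := one_mul _
    have h4 := norm_add_le (((w1 (x / x0) / x0 : ℝ) : ℂ) * P x)
      (((w (x / x0) : ℝ) : ℂ) * (((2 * Real.pi / (R * q) : ℝ) : ℂ) * Complex.I * P' x))
    have h5 : ‖((w1 (x / x0) / x0 : ℝ) : ℂ) * P x +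
      ((w (x / x0) : ℝ) : ℂ) * (((2 * Real.pi / (R * q) : ℝ) : ℂ) * Complex.I * P' x)‖ ≤
      12 / x0 * ‖P x‖ + 2 * Real.pi / (R * q) * ‖P' x‖ := by linarith
    have h6 : (12 / x0 * ‖P x‖ + 2 * Real.pi / (R * q) * ‖P' x‖) ^ 2 ≤
        2 * (12 / x0 * ‖P x‖) ^ 2 + 2 * (2 * Real.pi / (R * q) * ‖P' x‖) ^ 2 := by
      nlinarith [sq_nonneg (12 / x0 * ‖P x‖ - 2 * Real.pi / (R * q) * ‖P' x‖)]
    have h7 : 2 * (2 * Real.pi / (R * q) * ‖P' x‖) ^ 2 ≤ 80 / ((R : ℝ) * q) ^ 2 * ‖P' x‖ ^ 2 := by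
      have hpi : Real.pi ^ 2 ≤ 10 := by
        have h8 := Real.pi_lt_d2
        have h9 := Real.pi_pos
        nlinarith
      have e : 2 * (2 * Real.pi / (R * q) * ‖P' x‖) ^ 2 =
          (8 * Real.pi ^ 2) / ((R : ℝ) * q) ^ 2 * ‖P' x‖ ^ 2 := by ring
      rw [e]
      apply mul_le_mul_of_nonneg_right _ (by positivity)
      apply div_le_div_of_nonneg_right _ (by positivity)
      linarith
    have h8 : 2 * (12 / x0 * ‖P x‖) ^ 2 = 288 / x0 ^ 2 * ‖P x‖ ^ 2 := by ring
    calc _ ≤ (12 / x0 * ‖P x‖ + 2 * Real.pi / (R * q) * ‖P' x‖) ^ 2 := by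
          gcongr
      _ ≤ _ := by linarith
  -- integrability
  obtain ⟨KF, hKF⟩ : ∃ KF : ℝ, ∀ x, ‖F x‖ ≤ KF := by
    refine ⟨∑ r ∈ G, (12 / x0 + 2 * Real.pi / ((r * q : ℕ) : ℝ)), fun x => ?_⟩
    rw [hF]
    refine (norm_sum_le _ _).trans (sum_le_sum fun r _ => ?_)
    rw [norm_mul]
    have h1 := gg_bound hW x0 hx0 q r x
    calc ‖b r‖ * ‖gg x0 q r x‖ ≤ 1 * ‖gg x0 q r x‖ :=
          mul_le_mul_of_nonneg_right (hb1 r) (norm_nonneg _)
      _ ≤ _ := by rw [one_mul]; exact h1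
  have hK0 : 0 ≤ K := by
    have h1 : 0 ≤ ∑ n ∈ Icc 1 ⌊X⌋₊, ArithmeticFunction.vonMangoldt n :=
      sum_nonneg fun _ _ => ArithmeticFunction.vonMangoldt_nonneg
    rw [hK]
    linarith
  have hEr2 : IntegrableOn (fun x => Er q a x ^ 2) s := by
    refine Measure.integrableOn_of_bounded (M := K ^ 2) hfin
      ((Er_meas q a).pow_const 2).aestronglyMeasurable ?_
    rw [ae_restrict_iff' measurableSet_Ioc]
    refine Filter.Eventually.of_forall fun y hy => ?_
    rw [Real.norm_eq_abs, abs_pow]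
    have := hKb y hy
    gcongr
  have hF2 : IntegrableOn (fun x => ‖F x‖ ^ 2) s := by
    refine Measure.integrableOn_of_bounded (M := KF ^ 2) hfin
      ((hFm.norm).pow_const 2).aestronglyMeasurable ?_
    refine Filter.Eventually.of_forall fun y => ?_
    rw [Real.norm_eq_abs, abs_pow, abs_norm]
    have := hKF y
    gcongr
  have hEg : ∀ r, IntegrableOn (fun x => ((Er q a x : ℝ) : ℂ) * gg x0 q r x) s := by
    intro r
    refine Measure.integrableOn_of_bounded (M := K * (12 / x0 + 2 * Real.pi / ((r * q : ℕ) : ℝ))) hfin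
      ((Complex.measurable_ofReal.comp (Er_meas q a)).mul (gg_meas hW x0 q r)).aestronglyMeasurable ?_
    rw [ae_restrict_iff' measurableSet_Ioc]
    refine Filter.Eventually.of_forall fun y hy => ?_
    rw [norm_mul, Complex.norm_real, Real.norm_eq_abs]
    exact mul_le_mul (hKb y hy) (gg_bound hW x0 hx0 q r y) (norm_nonneg _) hK0
  -- the sum as an integral
  have hS : ((∑ r ∈ G, ‖J r‖ : ℝ) : ℂ) = ∫ x in s, ((Er q a x : ℝ) : ℂ) * F x := by
    push_cast
    calc ∑ r ∈ G, (‖J r‖ : ℂ) = ∑ r ∈ G, b r * J r :=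
          sum_congr rfl fun r _ => (hb2 r).symm
      _ = ∑ r ∈ G, ∫ x in s, b r * (((Er q a x : ℝ) : ℂ) * gg x0 q r x) := by
          apply sum_congr rfl
          intro r _
          rw [hJ]
          simp only
          rw [intervalIntegral.integral_of_le hle, integral_const_mul]
      _ = _ := by
          rw [← integral_finsetSum]
          · apply integral_congr_ae
            refine Filter.Eventually.of_forall fun x => ?_
            simp only
            rw [hF]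
            simp only
            rw [mul_sum]
            apply sum_congr rfl
            intro r _
            ring
          · intro r _
            exact (hEg r).const_mul _
  set S : ℝ := ∑ r ∈ G, ‖J r‖ with hSdef
  have hS1 : S ≤ ∫ x in s, |Er q a x| * ‖F x‖ := by
    calc S ≤ ‖((S : ℝ) : ℂ)‖ := by rw [Complex.norm_real]; exact le_abs_self _
      _ = ‖∫ x in s, ((Er q a x : ℝ) : ℂ) * F x‖ := by rw [hS]
      _ ≤ _ := by
          refine (norm_integral_le_integral_norm _).trans (le_of_eq ?_)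
          apply integral_congr_ae
          refine Filter.Eventually.of_forall fun x => ?_
          simp only
          rw [norm_mul, Complex.norm_real, Real.norm_eq_abs]
  set A : ℝ := ∫ x in x0..X, Er q a x ^ 2 with hA
  have hAs : A = ∫ x in s, Er q a x ^ 2 := by
    rw [hA, intervalIntegral.integral_of_le hle]
  have hA0 : 0 ≤ A := by
    rw [hAs]
    apply integral_nonneg
    intro x
    positivity
  set B0 : ℝ := G.card * (X + G.card * (4 * (R : ℝ) ^ 2 * q)) with hB0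
  have hB00 : 0 ≤ B0 := by positivity
  have hsub : s ⊆ Set.Ioc 0 X := Set.Ioc_subset_Ioc hx0.le le_rfl
  have hPint : ∀ (T : ℝ → ℂ), Continuous T →
      ∫ x in (0 : ℝ)..X, ‖T x‖ ^ 2 ≤ B0 → ∫ x in s, ‖T x‖ ^ 2 ≤ B0 := by
    intro T hT hle'
    refine le_trans ?_ hle'
    rw [intervalIntegral.integral_of_le hX0]
    apply setIntegral_mono_set
    · exact ((hT.norm.pow 2).continuousOn.integrableOn_Icc).mono_set Set.Ioc_subset_Icc_self
    · exact Filter.Eventually.of_forall fun x => by positivity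
    · exact hsub.eventuallyLE
  have hPb : ∫ x in s, ‖P x‖ ^ 2 ≤ B0 :=
    hPint P hPc (nrm1 q R G b X hq hG (fun r _ => hb1 r) hX0)
  have hPb' : ∫ x in s, ‖P' x‖ ^ 2 ≤ B0 := by
    refine hPint P' hPc' (nrm1 q R G (fun r => b r * ((R : ℂ) / r)) X hq hG (fun r hr => ?_) hX0)
    have hr := hG r hr
    have hr0 : (0 : ℝ) < r := by exact_mod_cast (by omega : 0 < r)
    rw [norm_mul, norm_div (R : ℂ) (r : ℂ), Complex.norm_natCast, Complex.norm_natCast]
    have h1 : (R : ℝ) / r ≤ 1 := by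
      rw [div_le_one hr0]
      exact_mod_cast hr.1.le
    exact mul_le_one₀ (hb1 r) (by positivity) h1
  have hPi : IntegrableOn (fun x => ‖P x‖ ^ 2) s :=
    ((hPc.norm.pow 2).continuousOn.integrableOn_Icc).mono_set Set.Ioc_subset_Icc_self
  have hPi' : IntegrableOn (fun x => ‖P' x‖ ^ 2) s :=
    ((hPc'.norm.pow 2).continuousOn.integrableOn_Icc).mono_set Set.Ioc_subset_Icc_self
  set cf : ℝ := 300 / x0 ^ 2 + 100 / ((R : ℝ) * q) ^ 2 with hcf
  have hcf0 : 0 ≤ cf := by positivity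
  have hFI : ∫ x in s, ‖F x‖ ^ 2 ≤ cf * B0 := by
    calc ∫ x in s, ‖F x‖ ^ 2 ≤ ∫ x in s,
        (288 / x0 ^ 2 * ‖P x‖ ^ 2 + 80 / ((R : ℝ) * q) ^ 2 * ‖P' x‖ ^ 2) := by
          apply integral_mono_of_nonneg
          · exact Filter.Eventually.of_forall fun x => by positivity
          · exact (hPi.const_mul _).add (hPi'.const_mul _)
          · exact Filter.Eventually.of_forall fun x => hFb x
      _ = 288 / x0 ^ 2 * (∫ x in s, ‖P x‖ ^ 2) + 80 / ((R : ℝ) * q) ^ 2 * (∫ x in s, ‖P' x‖ ^ 2) := by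
          rw [integral_add (hPi.const_mul _) (hPi'.const_mul _), integral_const_mul,
            integral_const_mul]
      _ ≤ 288 / x0 ^ 2 * B0 + 80 / ((R : ℝ) * q) ^ 2 * B0 := by gcongr
      _ ≤ 300 / x0 ^ 2 * B0 + 100 / ((R : ℝ) * q) ^ 2 * B0 := by
          gcongr
          · norm_num
          · norm_num
      _ = _ := by rw [hcf]; ring
  have hgoal : S ^ 2 ≤ A * (cf * B0) := by
    apply cs_arith S A (cf * B0) hA0 (sum_nonneg fun _ _ => norm_nonneg _) (by positivity)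
    intro l hl
    have h3 : 2 * ∫ x in s, |Er q a x| * ‖F x‖ ≤ l * (∫ x in s, Er q a x ^ 2) + (1 / l) *
        ∫ x in s, ‖F x‖ ^ 2 := by
      rw [← integral_const_mul, ← integral_const_mul, ← integral_const_mul, ← integral_add]
      · apply integral_mono_of_nonneg
        · exact Filter.Eventually.of_forall fun x => by positivity
        · exact (hEr2.const_mul l).add (hF2.const_mul (1 / l))
        · refine Filter.Eventually.of_forall fun x => ?_
          simp only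
          have h4 : 0 ≤ (l * |Er q a x| - ‖F x‖) ^ 2 / l := by positivity
          have h5 : (l * |Er q a x| - ‖F x‖) ^ 2 / l = l * Er q a x ^ 2 + 1 / l * ‖F x‖ ^ 2 -
              2 * (|Er q a x| * ‖F x‖) := by
            rw [← sq_abs (Er q a x)]
            field_simp
            ring
          linarith
      · exact hEr2.const_mul l
      · exact hF2.const_mul (1 / l)
    have h4 : (1 / l) * ∫ x in s, ‖F x‖ ^ 2 ≤ (1 / l) * (cf * B0) := by gcongr
    have h5 : (1 / l) * (cf * B0) = cf * B0 / l := by ring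
    rw [h5] at h4
    rw [hAs]
    linarith
  exact hgoal

end Pool.Agent.D0H12.EC
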