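import Pool.Agent.D0H44.EC.Stm
import Pool.Agent.D0H81.FR.SM

/-! Project EC, package SM2: sums over the moduli `q r` (after `D0H81/FR/SM.lean`). -/

set_option autoImplicit false

open Finset MeasureTheory

namespace Pool.Agent.D0H12.EC

open Pool.Agent.D0H44.EC (S_SM2)
open Pool.Agent.D0H81.FR (inv_tot inner)

/-- the number of prime factors -/
theorem card_pf (k : ℕ) (hk : 1 ≤ k) : (k.primeFactors.card : ℝ) ≤ 2 * (1 + Real.log k) := by
  have h3 : 2 ^ k.primeFactors.card ≤ k := by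
    calc 2 ^ k.primeFactors.card ≤ ∏ p ∈ k.primeFactors, p :=
          pow_card_le_prod _ _ _ (fun p hp => (Nat.prime_of_mem_primeFactors hp).two_le)
      _ ≤ k := Nat.le_of_dvd (by omega) (Nat.prod_primeFactors_dvd k)
  have h4 : (k.primeFactors.card : ℝ) * Real.log 2 ≤ Real.log k := by
    have h5 : ((2 : ℝ) ^ k.primeFactors.card) ≤ k := by exact_mod_cast h3
    have h6 := Real.log_le_log (by positivity) h5
    rwa [Real.log_pow] at h6
  have h7 := Real.log_two_gt_d9
  have hlog : 0 ≤ Real.log k := Real.log_natCast_nonneg k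
  have hcard0 : (0 : ℝ) ≤ k.primeFactors.card := by positivity
  nlinarith

/-- the divisors of `l r` which do not divide `l` -/
lemma div_eq2 (l r : ℕ) (hl : 1 ≤ l) (hr : r.Prime) (hrl : ¬ r ∣ l) :
    (l * r).divisors.filter (fun f => ¬ f ∣ l) = l.divisors.image (fun d => d * r) := by
  have hr0 : 0 < r := hr.pos
  ext f
  rw [mem_filter, Nat.mem_divisors, mem_image]
  constructor
  · rintro ⟨⟨h1, h2⟩, h3⟩
    have hrf : r ∣ f := by
      by_contra hc
      have hcop : Nat.Coprime f r := ((Nat.Prime.coprime_iff_not_dvd hr).2 hc).symm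
      exact h3 (hcop.dvd_of_dvd_mul_right h1)
    obtain ⟨d, rfl⟩ := hrf
    refine ⟨d, ?_, mul_comm _ _⟩
    rw [Nat.mem_divisors]
    refine ⟨?_, by omega⟩
    rw [mul_comm r d] at h1
    exact Nat.dvd_of_mul_dvd_mul_right hr0 h1
  · rintro ⟨d, hd, rfl⟩
    rw [Nat.mem_divisors] at hd
    refine ⟨⟨Nat.mul_dvd_mul_right hd.1 r, by positivity⟩, ?_⟩
    intro h
    exact hrl ((dvd_mul_left r d).trans h)

lemma sum_div_eq2 (l r : ℕ) (hl : 1 ≤ l) (hr : r.Prime) (hrl : ¬ r ∣ l) (X : ℕ → ℝ) :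
    1 / (Nat.totient (l * r) : ℝ) * ∑ f ∈ (l * r).divisors.filter (fun f => ¬ f ∣ l), X f =
      1 / ((r : ℝ) - 1) * (1 / (Nat.totient l : ℝ) * ∑ d ∈ l.divisors, X (d * r)) := by
  have hcop : Nat.Coprime l r := ((Nat.Prime.coprime_iff_not_dvd hr).2 hrl).symm
  rw [div_eq2 l r hl hr hrl, sum_image, Nat.totient_mul hcop, Nat.totient_prime hr]
  · rw [Nat.cast_mul, Nat.cast_sub hr.one_le, Nat.cast_one]
    rw [← mul_assoc, one_div_mul_one_div, mul_comm ((r : ℝ) - 1)]
  · intro d _ d' _ he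
    exact Nat.eq_of_mul_eq_mul_right hr.pos he

lemma abel2 (R N : ℕ) (X : ℕ → ℝ) (A B C : ℝ) (hR : 1 ≤ R) (hRN : R ≤ N) (hX : ∀ f, 0 ≤ X f)
    (hA : 0 ≤ A) (hB : 0 ≤ B) (hC : 0 ≤ C)
    (hS : ∀ t : ℕ, R ≤ t → t ≤ N → ∑ f ∈ Icc 2 t, X f ≤ A + B * t + C * (t : ℝ) ^ 2) :
    ∑ f ∈ Ioc R N, X f / f ≤ 2 * (A / R) + B * (1 + Real.log N) + 2 * C * N := by
  have key : ∀ t : ℕ, R ≤ t → t ≤ N → ∑ f ∈ Ioc R t, X f / f ≤ (∑ f ∈ Icc 2 t, X f) / t +
      A * (1 / R - 1 / t) + B * (Real.log t - Real.log R) + C * ((t : ℝ) - R) := by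
    intro t ht
    induction t, ht using Nat.le_induction with
    | base =>
      intro _
      rw [Ioc_self, sum_empty]
      have : 0 ≤ (∑ f ∈ Icc 2 R, X f) / R :=
        div_nonneg (sum_nonneg fun f _ => hX f) (Nat.cast_nonneg _)
      simpa using this
    | succ t ht ih =>
      intro htN
      have ih' := ih (by omega)
      have hs := hS t ht (by omega)
      have ht0 : (0 : ℝ) < t := by
        have : 0 < t := by omega
        exact_mod_cast this
      rw [sum_Ioc_succ_top (by omega), sum_Icc_succ_top (by omega)]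
      push_cast
      set S := ∑ f ∈ Icc 2 t, X f with hSd
      have h1 : S / t - S / (t + 1) = S * (1 / (t * (t + 1))) := by
        field_simp
        ring
      have h2 : S * (1 / ((t : ℝ) * (t + 1))) ≤
          (A + B * t + C * (t : ℝ) ^ 2) * (1 / ((t : ℝ) * (t + 1))) :=
        mul_le_mul_of_nonneg_right hs (by positivity)
      have h3 : (A + B * t + C * (t : ℝ) ^ 2) * (1 / ((t : ℝ) * (t + 1))) =
          A * (1 / t - 1 / (t + 1)) + B * (1 / (t + 1)) + C * (t / (t + 1)) := by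
        field_simp
        ring
      have h4 : 1 / ((t : ℝ) + 1) ≤ Real.log (t + 1) - Real.log t := by
        rw [← Real.log_div (by positivity) (by positivity)]
        have := Real.one_sub_inv_le_log_of_pos (x := ((t : ℝ) + 1) / t) (by positivity)
        refine le_trans (le_of_eq ?_) this
        field_simp
        ring
      have h5 : (t : ℝ) / (t + 1) ≤ 1 := by
        rw [div_le_one (by positivity)]; linarith
      have h6 : B * (1 / ((t : ℝ) + 1)) ≤ B * (Real.log (t + 1) - Real.log t) :=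
        mul_le_mul_of_nonneg_left h4 hB
      have h7 : C * ((t : ℝ) / (t + 1)) ≤ C * 1 := mul_le_mul_of_nonneg_left h5 hC
      have h8 : (S + X (t + 1)) / ((t : ℝ) + 1) = X (t + 1) / (t + 1) + S / (t + 1) := by ring
      rw [h8]
      linarith
  have h := key N hRN le_rfl
  have hs := hS N hRN le_rfl
  have hR0 : (0 : ℝ) < R := by
    have : 0 < R := by omega
    exact_mod_cast this
  have hN0 : (0 : ℝ) < N := by
    have : 0 < N := by omega
    exact_mod_cast this
  have h1 : (∑ f ∈ Icc 2 N, X f) / N ≤ A / N + B + C * N := by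
    rw [div_le_iff₀ hN0]
    refine hs.trans (le_of_eq ?_)
    field_simp
  have h2 : 0 ≤ Real.log R := Real.log_natCast_nonneg R
  have h3 : B * (Real.log N - Real.log R) ≤ B * Real.log N :=
    mul_le_mul_of_nonneg_left (by linarith) hB
  have h4 : C * ((N : ℝ) - R) ≤ C * N := mul_le_mul_of_nonneg_left (by linarith) hC
  have h5 : A * (1 / R - 1 / N) = A / R - A / N := by ring
  have h6 : 0 ≤ A / R := by positivity
  rw [h5] at h
  linarith

theorem t_SM2 : S_SM2 := by
  intro Q R G X A B C hQ hR hG hX hA hB hC hS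
  set N := 4 * Q * R with hN
  have hRN : R ≤ N := by rw [hN]; nlinarith
  have hQ0 : (0 : ℝ) < Q := by exact_mod_cast hQ
  have hR0 : (0 : ℝ) < R := by exact_mod_cast hR
  have hQN : 2 * Q ≤ N := by rw [hN]; nlinarith
  have h2Q0 : (0 : ℝ) < ((2 * Q : ℕ) : ℝ) := by
    have : 0 < 2 * Q := by omega
    exact_mod_cast this
  set Z := 1 + Real.log (N : ℝ) with hZ
  have hlogN : 0 ≤ Real.log (N : ℝ) := Real.log_natCast_nonneg N
  have hZ1 : 1 ≤ Z := by rw [hZ]; linarith
  have hZ0 : 0 ≤ Z := by linarith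
  have hQZ : 1 + Real.log ((2 * Q : ℕ) : ℝ) ≤ Z := by
    rw [hZ]
    have := Real.log_le_log h2Q0 (by exact_mod_cast hQN : ((2 * Q : ℕ) : ℝ) ≤ N)
    linarith
  have hQZ0 : 0 ≤ 1 + Real.log ((2 * Q : ℕ) : ℝ) := by
    have := Real.log_natCast_nonneg (2 * Q)
    linarith
  -- step 1
  have s1 : ∑ q ∈ Ioc Q (2 * Q), ∑ r ∈ G.filter (fun r => ¬ r ∣ q),
      1 / (Nat.totient (q * r) : ℝ) * ∑ f ∈ (q * r).divisors.filter (fun f => ¬ f ∣ q), X f ≤
      ∑ r ∈ G, 1 / ((r : ℝ) - 1) * ∑ q ∈ Icc 1 (2 * Q),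
        1 / (Nat.totient q : ℝ) * ∑ d ∈ q.divisors, X (d * r) := by
    have e1 : ∀ q ∈ Ioc Q (2 * Q), ∑ r ∈ G.filter (fun r => ¬ r ∣ q),
        1 / (Nat.totient (q * r) : ℝ) * ∑ f ∈ (q * r).divisors.filter (fun f => ¬ f ∣ q), X f ≤
        ∑ r ∈ G, 1 / ((r : ℝ) - 1) * (1 / (Nat.totient q : ℝ) * ∑ d ∈ q.divisors, X (d * r)) := by
      intro q hq
      rw [mem_Ioc] at hq
      have e2 : ∀ r ∈ G.filter (fun r => ¬ r ∣ q),
          1 / (Nat.totient (q * r) : ℝ) *
            ∑ f ∈ (q * r).divisors.filter (fun f => ¬ f ∣ q), X f =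
          1 / ((r : ℝ) - 1) * (1 / (Nat.totient q : ℝ) * ∑ d ∈ q.divisors, X (d * r)) := by
        intro r hr
        rw [mem_filter] at hr
        exact sum_div_eq2 q r (by omega) (hG r hr.1).1 hr.2 X
      rw [sum_congr rfl e2]
      apply sum_le_sum_of_subset_of_nonneg (filter_subset _ _)
      intro r hr _
      have hr1 : (0 : ℝ) < (r : ℝ) - 1 := by
        have : (1 : ℝ) < r := by exact_mod_cast (hG r hr).1.one_lt
        linarith
      have : 0 ≤ ∑ d ∈ q.divisors, X (d * r) := sum_nonneg fun d _ => hX _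
      positivity
    refine (sum_le_sum e1).trans ?_
    rw [sum_comm]
    apply sum_le_sum
    intro r hr
    have hr1 : (0 : ℝ) < (r : ℝ) - 1 := by
      have : (1 : ℝ) < r := by exact_mod_cast (hG r hr).1.one_lt
      linarith
    rw [← mul_sum]
    apply mul_le_mul_of_nonneg_left _ (by positivity)
    apply sum_le_sum_of_subset_of_nonneg
    · intro q hq
      rw [mem_Ioc] at hq
      rw [mem_Icc]
      omega
    · intro q _ _
      have : 0 ≤ ∑ d ∈ q.divisors, X (d * r) := sum_nonneg fun d _ => hX _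
      positivity
  have s2 : ∀ r ∈ G, 1 / ((r : ℝ) - 1) * ∑ q ∈ Icc 1 (2 * Q),
        1 / (Nat.totient q : ℝ) * ∑ d ∈ q.divisors, X (d * r) ≤
      ∑ d ∈ Icc 1 (2 * Q), (4 * Z ^ 3) * (X (d * r) / ((d * r : ℕ) : ℝ)) := by
    intro r hr
    have hGr := hG r hr
    have hr2 : (2 : ℝ) ≤ (r : ℝ) := by exact_mod_cast hGr.1.two_le
    have hr1 : (0 : ℝ) < (r : ℝ) - 1 := by linarith
    have h1 := inner (2 * Q) (fun d => X (d * r)) (fun d => hX _)
    calc 1 / ((r : ℝ) - 1) * ∑ q ∈ Icc 1 (2 * Q),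
        1 / (Nat.totient q : ℝ) * ∑ d ∈ q.divisors, X (d * r) ≤
        1 / ((r : ℝ) - 1) * ((1 + Real.log ((2 * Q : ℕ) : ℝ)) ^ 2 * ∑ d ∈ Icc 1 (2 * Q),
          X (d * r) / (Nat.totient d : ℝ)) := mul_le_mul_of_nonneg_left h1 (by positivity)
      _ ≤ 1 / ((r : ℝ) - 1) * (Z ^ 2 * ∑ d ∈ Icc 1 (2 * Q),
          X (d * r) / (Nat.totient d : ℝ)) := by
          apply mul_le_mul_of_nonneg_left _ (by positivity)
          apply mul_le_mul_of_nonneg_right (pow_le_pow_left₀ hQZ0 hQZ 2)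
          exact sum_nonneg fun d _ => div_nonneg (hX _) (Nat.cast_nonneg _)
      _ = ∑ d ∈ Icc 1 (2 * Q), Z ^ 2 * (X (d * r) *
            (1 / (((r : ℝ) - 1) * (Nat.totient d : ℝ)))) := by
          rw [mul_sum, mul_sum]
          apply sum_congr rfl
          intro d hd
          rw [mem_Icc] at hd
          have hφ : (0 : ℝ) < Nat.totient d := by exact_mod_cast Nat.totient_pos.2 (by omega)
          field_simp
      _ ≤ _ := by
          apply sum_le_sum
          intro d hd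
          rw [mem_Icc] at hd
          have hdr : 1 ≤ d * r := Nat.mul_pos (by omega) hGr.1.pos
          have h2 := inv_tot (d * r) hdr
          have hdrN : d * r ≤ N := by
            rw [hN]
            have := Nat.mul_le_mul hd.2 hGr.2.2
            nlinarith
          have hdr0 : (0 : ℝ) < ((d * r : ℕ) : ℝ) := by exact_mod_cast hdr
          have h3 : Real.log ((d * r : ℕ) : ℝ) ≤ Real.log (N : ℝ) :=
            Real.log_le_log hdr0 (by exact_mod_cast hdrN)
          have hφ : (0 : ℝ) < Nat.totient d := by exact_mod_cast Nat.totient_pos.2 (by omega)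
          have hφ2 : (0 : ℝ) < Nat.totient (d * r) := by exact_mod_cast Nat.totient_pos.2 hdr
          have h4 : 1 / (((r : ℝ) - 1) * (Nat.totient d : ℝ)) ≤
              2 * (1 / (Nat.totient (d * r) : ℝ)) := by
            have h5 : Nat.totient (d * r) ≤ r * Nat.totient d := by
              rw [mul_comm d r]
              by_cases h : r ∣ d
              · rw [Nat.totient_mul_of_prime_of_dvd hGr.1 h]
              · rw [Nat.totient_mul_of_prime_of_not_dvd hGr.1 h]
                exact Nat.mul_le_mul_right _ (Nat.sub_le _ _)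
            have h6 : (Nat.totient (d * r) : ℝ) ≤ r * Nat.totient d := by exact_mod_cast h5
            rw [mul_one_div, div_le_div_iff₀ (by positivity) hφ2]
            nlinarith
          have h5 : 1 / (((r : ℝ) - 1) * (Nat.totient d : ℝ)) ≤ 4 * Z / ((d * r : ℕ) : ℝ) := by
            refine h4.trans ?_
            have h6 : 2 * (1 / (Nat.totient (d * r) : ℝ)) ≤
                2 * (2 * (1 + Real.log ((d * r : ℕ) : ℝ)) / ((d * r : ℕ) : ℝ)) :=
              mul_le_mul_of_nonneg_left h2 (by norm_num)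
            refine h6.trans ?_
            rw [← mul_div_assoc]
            apply div_le_div_of_nonneg_right _ hdr0.le
            rw [hZ]
            linarith
          calc Z ^ 2 * (X (d * r) * (1 / (((r : ℝ) - 1) * (Nat.totient d : ℝ)))) ≤
              Z ^ 2 * (X (d * r) * (4 * Z / ((d * r : ℕ) : ℝ))) := by
                apply mul_le_mul_of_nonneg_left _ (by positivity)
                exact mul_le_mul_of_nonneg_left h5 (hX _)
            _ = _ := by ring
  have s3 : ∑ r ∈ G, ∑ d ∈ Icc 1 (2 * Q), (4 * Z ^ 3) * (X (d * r) / ((d * r : ℕ) : ℝ)) ≤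
      (4 * Z ^ 3) * ∑ f ∈ Ioc R N, (2 * Z) * (X f / f) := by
    have e1 : ∑ r ∈ G, ∑ d ∈ Icc 1 (2 * Q), (4 * Z ^ 3) * (X (d * r) / ((d * r : ℕ) : ℝ)) =
        (4 * Z ^ 3) * ∑ p ∈ G ×ˢ Icc 1 (2 * Q), X (p.2 * p.1) / ((p.2 * p.1 : ℕ) : ℝ) := by
      rw [sum_product, mul_sum]
      apply sum_congr rfl
      intro r _
      rw [mul_sum]
    rw [e1]
    apply mul_le_mul_of_nonneg_left _ (by positivity)
    have hmaps : ∀ p ∈ G ×ˢ Icc 1 (2 * Q), p.2 * p.1 ∈ Ioc R N := by
      rintro ⟨r, d⟩ hp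
      rw [mem_product, mem_Icc] at hp
      simp only at hp
      have g1 := hG r hp.1
      rw [mem_Ioc]
      simp only
      constructor
      · nlinarith [hp.2.1, g1.2.1]
      · rw [hN]
        have := Nat.mul_le_mul hp.2.2 g1.2.2
        nlinarith
    rw [← sum_fiberwise_of_maps_to hmaps]
    apply sum_le_sum
    intro f hf
    rw [mem_Ioc] at hf
    have e2 : ∑ p ∈ (G ×ˢ Icc 1 (2 * Q)).filter (fun p => p.2 * p.1 = f),
        X (p.2 * p.1) / ((p.2 * p.1 : ℕ) : ℝ) =
        ∑ _p ∈ (G ×ˢ Icc 1 (2 * Q)).filter (fun p => p.2 * p.1 = f), X f / (f : ℝ) := by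
      apply sum_congr rfl
      intro p hp
      rw [mem_filter] at hp
      rw [hp.2]
    rw [e2, sum_const, nsmul_eq_mul]
    apply mul_le_mul_of_nonneg_right _ (div_nonneg (hX f) (Nat.cast_nonneg _))
    have hcard : ((G ×ˢ Icc 1 (2 * Q)).filter (fun p => p.2 * p.1 = f)).card ≤
        f.primeFactors.card := by
      apply card_le_card_of_injOn (fun p => p.1)
      · intro p hp
        rw [mem_coe, mem_filter, mem_product] at hp
        rw [mem_coe, Nat.mem_primeFactors]
        refine ⟨(hG _ hp.1.1).1, ?_, by omega⟩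
        rw [← hp.2]
        exact dvd_mul_left _ _
      · rintro ⟨r, d⟩ hp ⟨r', d'⟩ hp' he
        rw [mem_coe, mem_filter, mem_product] at hp hp'
        simp only at he hp hp'
        subst he
        have : d = d' := Nat.eq_of_mul_eq_mul_right (hG r hp.1.1).1.pos (hp.2.trans hp'.2.symm)
        rw [this]
    have hf1 : 1 ≤ f := by omega
    have hcf := card_pf f hf1
    have hlf : Real.log (f : ℝ) ≤ Real.log (N : ℝ) :=
      Real.log_le_log (by exact_mod_cast hf1) (by exact_mod_cast hf.2)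
    have hcard' : ((((G ×ˢ Icc 1 (2 * Q)).filter (fun p => p.2 * p.1 = f)).card : ℕ) : ℝ) ≤
        (f.primeFactors.card : ℝ) := by exact_mod_cast hcard
    rw [hZ]
    linarith
  have s4 := abel2 R N X A B C hR hRN hX hA hB hC hS
  refine (s1.trans ((sum_le_sum s2).trans s3)).trans ?_
  rw [← mul_sum]
  have hNr : (N : ℝ) = 4 * (Q * R) := by rw [hN]; push_cast; ring
  have hAR : 0 ≤ A / R := by positivity
  have hCQR : 0 ≤ C * ((Q : ℝ) * R) := by positivity
  have hZ46 : Z ^ 4 ≤ Z ^ 6 := pow_le_pow_right₀ hZ1 (by norm_num)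
  have hZ56 : Z ^ 5 ≤ Z ^ 6 := pow_le_pow_right₀ hZ1 (by norm_num)
  calc (4 * Z ^ 3) * ((2 * Z) * ∑ f ∈ Ioc R N, X f / f) ≤
      (4 * Z ^ 3) * ((2 * Z) * (2 * (A / R) + B * Z + 2 * C * N)) := by
        apply mul_le_mul_of_nonneg_left _ (by positivity)
        exact mul_le_mul_of_nonneg_left s4 (by positivity)
    _ = 16 * (Z ^ 4 * (A / R)) + 8 * (Z ^ 5 * B) + 64 * (Z ^ 4 * (C * (Q * R))) := by
        rw [hNr]; ring
    _ ≤ 16 * (Z ^ 6 * (A / R)) + 8 * (Z ^ 6 * B) + 64 * (Z ^ 6 * (C * (Q * R))) := by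
        have t1 := mul_le_mul_of_nonneg_right hZ46 hAR
        have t2 := mul_le_mul_of_nonneg_right hZ46 hCQR
        have t3 := mul_le_mul_of_nonneg_right hZ56 hB
        linarith
    _ ≤ 400 * Z ^ 6 * (A / R + B + C * ((Q : ℝ) * R)) := by
        have t1 : 0 ≤ Z ^ 6 * (A / R) := by positivity
        have t2 : 0 ≤ Z ^ 6 * B := by positivity
        have t3 : 0 ≤ Z ^ 6 * (C * ((Q : ℝ) * R)) := by positivity
        nlinarith

end Pool.Agent.D0H12.EC
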